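import Mathlib
import Pool.Agent.Lib.MP_3c3661_al.Final

/-!
Cyclic composition factors of `k`-rational groups coming from chief factors with `p`-solvable
action: the prime is at most `2 ^ (125 * k)`.
-/

set_option autoImplicit false

namespace Pool.Agent.Lib.MP_3c3661_al.Variants.PSolvableAction

open Pool.Agent.Lib.MP_3c3661_al

/-- Let `G` be a finite `k`-rational group, `p` a prime, `N < M` normal subgroups of `G` with
`M / N` a `p`-group, and `C` a normal subgroup centralising `M / N` such that `G / C` is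
`p`-solvable. Then `p ≤ 2 ^ (125 * k)`. -/
theorem result (k : ℕ) (hk : 0 < k) (G : Type) [Group G] [Finite G] (hG : KRational k G)
    (p : ℕ) (hp : p.Prime) (N M C : Subgroup G) [N.Normal] [M.Normal] [C.Normal] (hNM : N < M)
    (hMN : ∃ a : ℕ, N.relIndex M = p ^ a)
    (hC : ∀ c ∈ C, ∀ x ∈ M, c * x * c⁻¹ * x⁻¹ ∈ N)
    (hs : IsPSolvable p (G ⧸ C)) : p ≤ 2 ^ (125 * k) := by
  have : Fact p.Prime := ⟨hp⟩
  obtain ⟨a, ha⟩ := hMN
  exact main hk hG N M C hNM.le hNM.ne ha hC hs

end Pool.Agent.Lib.MP_3c3661_al.Variants.PSolvableAction
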